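import Mathlib
import Pool.Agent.Q18.P.Tensor
import Pool.Agent.Q190.RV.Pure

/-!
# Central values for `SO(n+1) × SO(n)` and ratios of Euler products at the centre

In the Gross-Prasad conjecture the period is to be nonzero exactly when `Λ = L(1/2, π_{n+1} ⊠ π_n) ≠ 0`. Let `a_{v,i}` and
`b_{v,j}`, `v ∉ S`, be the standard Satake parameters of the tempered representations `π_{n+1}` and `π_n`, so
`|a_{v,i}| = |b_{v,j}| = 1`, and `F(s) = L^S(s, π_{n+1} ⊠ π_n) = ∏_{v ∉ S} ∏_{i,j} (1 - a_{v,i} b_{v,j} q_v^{-s})⁻¹`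
(`Re s > 1`), holomorphic and of polynomial growth in a half plane `Re s > 1/2 - η` (known, unless there are poles at
`Re s = 1`). As the local factors at the places of `S` have neither zeros nor poles at `s = 1/2` (temperedness), `Λ ≠ 0` is
the same as `F(1/2) ≠ 0`. Let

`P(y) = ∏_{v ∉ S, q_v ≤ y} |∏_{i,j} (1 - a_{v,i} b_{v,j} q_v^{-1/2})|`.

We prove (inequalities are for all large `y`; nothing is supposed about the zeros of `F`):

1. Nonvanishing from ONE exponent `l > 1`: if `P(y^l) ≤ Q P(y)` and `Q < l`, then `F(1/2) ≠ 0`, and `F` has no zeros with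
   `Re s > 1/2`. If the order of `F` at `1/2` is even (the root number is `1` if the local Hom spaces are not zero), then
   `Q < l²` is sufficient: for instance `P(y²) ≤ 3.99 P(y)` for all large `y` implies `Λ ≠ 0`.
2. Vanishing from one exponent: if `P(y^l) ≤ Q P(y)` for some `Q`, and `q P(y) ≤ P(y^l)` for some `q > 1`, then
   `F(1/2) = 0`.
3. If `P(y^l) / P(y)` converges to `c` for one `l > 1`, then `F` has no zeros with `Re s > 1/2`, and `F(1/2) ≠ 0` if and
   only if `c = 1`, and if and only if `c < l`.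
4. `P` is bounded between two positive constants if and only if `F(1/2) ≠ 0` and `P` is regular: for all `l` in some set
   of positive outer measure in `(1, ∞)` there is a `Q(l)` with `P(y^l) ≤ Q(l) P(y)`. If `P` is regular and `F(1/2) = 0`,
   then `P(y) ≥ a log y` for some `a > 0`, and `P(y) ≥ a (log y)²` if the order is even.
-/

set_option autoImplicit false

namespace Pool.Agent.Results.MP_6342b0_nt.CentralValueRatios

open Filter Topology Set Complex NumberField IsDedekindDomain MeasureTheory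

variable {K : Type} [Field K] [NumberField K] {p q : ℕ}

/-- `q_v` -/
noncomputable def norm (v : HeightOneSpectrum (𝓞 K)) : ℕ := Ideal.absNorm v.asIdeal

/-- `∏_{i,j} (1 - a_{v,i} b_{v,j} q_v^{-s})` -/
noncomputable def factor (a : HeightOneSpectrum (𝓞 K) → Fin p → ℂ) (b : HeightOneSpectrum (𝓞 K) → Fin q → ℂ)
    (v : HeightOneSpectrum (𝓞 K)) (s : ℂ) : ℂ :=
  ∏ i, ∏ j, (1 - a v i * b v j * (norm v : ℂ) ^ (-s))

/-- The parameters `a_{v,i}`, `b_{v,j}`, `v ∉ S`, have the absolute value `1`, `F` is holomorphic and of polynomial growth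
in a half plane `Re s > 1/2 - η`, and for `Re s > 1` it is the Euler product. -/
structure IsL (S : Finset (HeightOneSpectrum (𝓞 K))) (a : HeightOneSpectrum (𝓞 K) → Fin p → ℂ)
    (b : HeightOneSpectrum (𝓞 K) → Fin q → ℂ) (F : ℂ → ℂ) : Prop where
  abs_a : ∀ v, v ∉ S → ∀ i, ‖a v i‖ = 1
  abs_b : ∀ v, v ∉ S → ∀ j, ‖b v j‖ = 1
  holo : ∃ (η C : ℝ) (k : ℕ), 0 < η ∧ ∀ s : ℂ, 1 / 2 - η < s.re → DifferentiableAt ℂ F s ∧ ‖F s‖ ≤ C * (1 + ‖s‖) ^ k
  euler : ∀ s : ℂ, 1 < s.re → HasProd (fun v : {v : HeightOneSpectrum (𝓞 K) // v ∉ S} => (factor a b v.1 s)⁻¹) (F s)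

/-- `P(y) = ∏_{v ∉ S, q_v ≤ y} |∏_{i,j} (1 - a_{v,i} b_{v,j} q_v^{-1/2})|` -/
noncomputable def product (S : Finset (HeightOneSpectrum (𝓞 K))) (a : HeightOneSpectrum (𝓞 K) → Fin p → ℂ)
    (b : HeightOneSpectrum (𝓞 K) → Fin q → ℂ) (y : ℝ) : ℝ :=
  ∏ᶠ v ∈ {v : HeightOneSpectrum (𝓞 K) | v ∉ S ∧ (norm v : ℝ) ≤ y}, ‖factor a b v (1 / 2)‖

/-- The order of `F` at `1/2` is even. -/
def EvenOrder (F : ℂ → ℂ) : Prop := ∃ m : ℕ, analyticOrderAt F (1 / 2) = m ∧ Even m

/-- `F` has no zeros with `Re s > 1/2` -/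
def NoZeros (F : ℂ → ℂ) : Prop := ∀ s : ℂ, 1 / 2 < s.re → F s ≠ 0

/-- `P(y^l) ≤ Q P(y)` for all large `y` -/
def Upper (P : ℝ → ℝ) (l Q : ℝ) : Prop := ∀ᶠ y : ℝ in atTop, P (y ^ l) ≤ Q * P y

/-- `q P(y) ≤ P(y^l)` for all large `y` -/
def Lower (P : ℝ → ℝ) (l q : ℝ) : Prop := ∀ᶠ y : ℝ in atTop, q * P y ≤ P (y ^ l)

/-- There is a set `Λ ⊆ (1, ∞)` of positive (outer) Lebesgue measure such that for every `l ∈ Λ` there is a `Q` with
`P(y^l) ≤ Q P(y)` for all large `y`. -/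
def Regular (P : ℝ → ℝ) : Prop :=
  ∃ Λ : Set ℝ, Λ ⊆ Ioi 1 ∧ volume Λ ≠ 0 ∧ ∀ l ∈ Λ, ∃ Q : ℝ, Upper P l Q

/-! ### translation -/

variable {S : Finset (HeightOneSpectrum (𝓞 K))} {a : HeightOneSpectrum (𝓞 K) → Fin p → ℂ}
  {b : HeightOneSpectrum (𝓞 K) → Fin q → ℂ} {F : ℂ → ℂ}

theorem half_c : (1 / 2 : ℝ) = (((0 : ℕ) : ℝ) + 1) / 2 := by norm_num

theorem factor_eq (v : HeightOneSpectrum (𝓞 K)) (s : ℂ) :
    factor a b v s = ∏ j, (1 - Pool.Agent.Q18.P.tensor a b v j * (norm v : ℂ) ^ (-s)) :=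
  (Pool.Agent.Q18.P.prod_tensor a b v _).symm

theorem product_eq : product S a b = Pool.Agent.Q18.P.product (1 / 2) S (Pool.Agent.Q18.P.tensor a b) := by
  funext y
  unfold product Pool.Agent.Q18.P.product
  refine finprod_congr fun v => finprod_congr fun _ => ?_
  rw [factor_eq]
  push_cast
  rfl

/-- **Central values for `SO(n+1) × SO(n)` and ratios of Euler products.** -/
theorem result (K : Type) [Field K] [NumberField K] (p q : ℕ) (S : Finset (HeightOneSpectrum (𝓞 K)))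
    (a : HeightOneSpectrum (𝓞 K) → Fin p → ℂ) (b : HeightOneSpectrum (𝓞 K) → Fin q → ℂ) (F : ℂ → ℂ)
    (hF : IsL S a b F) :
    -- (1) nonvanishing from one exponent
    (∀ l Q : ℝ, 1 < l → Upper (product S a b) l Q →
      NoZeros F ∧ (Q < l → F (1 / 2) ≠ 0) ∧ (EvenOrder F → Q < l ^ 2 → F (1 / 2) ≠ 0)) ∧
    -- (2) vanishing from one exponent
    (∀ l Q r : ℝ, 1 < l → 1 < r → Upper (product S a b) l Q → Lower (product S a b) l r → F (1 / 2) = 0) ∧
    -- (3) the limit of the ratio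
    (∀ l c : ℝ, 1 < l → Tendsto (fun y : ℝ => product S a b (y ^ l) / product S a b y) atTop (𝓝 c) →
      NoZeros F ∧ (F (1 / 2) ≠ 0 ↔ c = 1) ∧ (F (1 / 2) ≠ 0 ↔ c < l)) ∧
    -- (4) bounded products
    ((∃ A B : ℝ, 0 < A ∧ ∀ᶠ y : ℝ in atTop, A ≤ product S a b y ∧ product S a b y ≤ B) ↔
      F (1 / 2) ≠ 0 ∧ Regular (product S a b)) ∧
    (Regular (product S a b) → NoZeros F ∧
      (F (1 / 2) = 0 → ∃ A : ℝ, 0 < A ∧ ∀ᶠ y : ℝ in atTop, A * Real.log y ≤ product S a b y) ∧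
      (F (1 / 2) = 0 → EvenOrder F →
        ∃ A : ℝ, 0 < A ∧ ∀ᶠ y : ℝ in atTop, A * Real.log y ^ 2 ≤ product S a b y)) := by
  have hb : Pool.Agent.Q18.P.Bdd 0 S (Pool.Agent.Q18.P.tensor a b) := by
    refine Pool.Agent.Q18.P.tensor_bdd (fun v hv j => ?_) (fun v hv j => ?_)
    · rw [hF.abs_a v hv j]
      simp
    · rw [hF.abs_b v hv j]
      simp
  have hH : Pool.Agent.Q190.RV.Holo (1 / 2) S (Pool.Agent.Q18.P.tensor a b) F := by
    refine ⟨hF.holo, fun s hs => (hF.euler s (by linarith)).congr_fun fun v => ?_⟩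
    rw [factor_eq]
    rfl
  obtain ⟨m, hm⟩ := hH.order_finite' half_c hb
  obtain ⟨o1, o2⟩ := Pool.Agent.Q190.RV.order_law half_c hb hH hm
  rw [← product_eq] at o1 o2
  have hcast : (((1 / 2 : ℝ)) : ℂ) = 1 / 2 := by push_cast; rfl
  have hm' : analyticOrderAt F (1 / 2) = m := by rw [← hcast]; exact hm
  have han : AnalyticAt ℂ F (1 / 2) := by
    have := hH.analytic.1
    rwa [hcast] at this
  have hv : F (1 / 2) ≠ 0 ↔ m = 0 := by
    have h1 := han.analyticOrderAt_eq_zero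
    rw [hm'] at h1
    rw [← h1]
    exact Nat.cast_eq_zero
  have hev : EvenOrder F → Even m := by
    rintro ⟨k, hk, hk2⟩
    rw [hm'] at hk
    rwa [Nat.cast_inj.1 hk]
  have u1 : ∀ l Q : ℝ, 1 < l → Upper (product S a b) l Q → NoZeros F ∧ l ^ m ≤ Q := by
    intro l Q hl h
    unfold Upper at h
    rw [product_eq] at h
    exact Pool.Agent.Q190.RV.one_upper half_c hb hH hm hl h
  have low : ∀ (l Q : ℝ) (k : ℕ), 1 < l → l ^ m ≤ Q → Q < l ^ k → m < k := fun l Q k hl h1 h2 =>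
    (pow_lt_pow_iff_right₀ hl).1 (lt_of_le_of_lt h1 h2)
  refine ⟨fun l Q hl h => ?_, fun l Q r hl hr h1 h2 => ?_, fun l c hl h => ?_, ?_, fun h => ?_⟩
  · obtain ⟨a1, a2⟩ := u1 l Q hl h
    refine ⟨a1, fun h3 => hv.2 ?_, fun h3 h4 => hv.2 ?_⟩
    · have := low l Q 1 hl a2 (by rwa [pow_one])
      omega
    · have h5 := low l Q 2 hl a2 h4
      obtain ⟨k, hk⟩ := hev h3
      omega
  · obtain ⟨a1, a2⟩ := u1 l Q hl h1
    unfold Lower at h2
    rw [product_eq] at h2
    have h3 := Pool.Agent.Q190.RV.one_lower half_c hb hH hm a1 hl (by linarith) h2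
    by_contra hne
    have h4 := hv.1 hne
    rw [h4, pow_zero] at h3
    linarith
  · rw [product_eq] at h
    obtain ⟨a1, a2⟩ := Pool.Agent.Q190.RV.one_limit half_c hb hH hm hl h
    refine ⟨a1, ?_, ?_⟩
    · rw [hv, a2]
      constructor
      · rintro rfl
        exact pow_zero l
      · intro h1
        by_contra hne
        have := one_lt_pow₀ hl hne
        linarith
    · rw [hv, a2]
      constructor
      · rintro rfl
        rw [pow_zero]
        exact hl
      · intro h1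
        have := low l (l ^ m) 1 hl le_rfl (by rwa [pow_one])
        omega
  · have h1 := o1 0
    have h2 : (∃ A B : ℝ, 0 < A ∧ ∀ᶠ y : ℝ in atTop, A ≤ product S a b y ∧ product S a b y ≤ B) ↔
        Pool.Agent.Q190.RV.OfOrder (product S a b) 0 := by
      unfold Pool.Agent.Q190.RV.OfOrder
      simp only [Real.rpow_zero, mul_one]
    rw [h2, h1, hv]
    refine and_congr_left fun _ => ?_
    constructor
    · intro h3
      exact_mod_cast h3.symm
    · intro h3
      rw [h3, Nat.cast_zero]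
  · have h' : Pool.Agent.Q190.RV.Regular (product S a b) := h
    obtain ⟨A, B, hA, hAB⟩ := (o1 m).2 ⟨rfl, h'⟩
    refine ⟨(o2 h').1, fun h0 => ⟨A, hA, ?_⟩, fun h0 h1 => ⟨A, hA, ?_⟩⟩
    · have hm0 : m ≠ 0 := fun h3 => (hv.2 h3) h0
      filter_upwards [hAB, eventually_ge_atTop (Real.exp 1)] with y hy hy1
      refine le_trans (mul_le_mul_of_nonneg_left ?_ hA.le) hy.1
      have hl : 1 ≤ Real.log y := by
        rw [← Real.log_exp 1]
        exact Real.log_le_log (Real.exp_pos 1) hy1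
      rw [Real.rpow_natCast]
      calc Real.log y = Real.log y ^ 1 := (pow_one _).symm
        _ ≤ Real.log y ^ m := pow_le_pow_right₀ hl (by omega)
    · have hm0 : m ≠ 0 := fun h3 => (hv.2 h3) h0
      obtain ⟨k, hk⟩ := hev h1
      filter_upwards [hAB, eventually_ge_atTop (Real.exp 1)] with y hy hy1
      refine le_trans (mul_le_mul_of_nonneg_left ?_ hA.le) hy.1
      have hl : 1 ≤ Real.log y := by
        rw [← Real.log_exp 1]
        exact Real.log_le_log (Real.exp_pos 1) hy1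
      rw [Real.rpow_natCast]
      exact pow_le_pow_right₀ hl (by omega)

end Pool.Agent.Results.MP_6342b0_nt.CentralValueRatios
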