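import Mathlib
import Pool.Agent.Q18.P.Dual

/-!
# Gross-Prasad: the central value `L(1/2, π_{n+1} ⊠ π_n)` and Euler products on one sequence of windows

`π_{n+1}`, `π_n` are tempered cuspidal automorphic representations of `SO(V_{n+1})`, `SO(V_n)` over a number field `K`
as in the problem, `S` a finite set of finite places containing the bad ones, and `a_{v,i}`, `b_{v,j}`, `v ∉ S`, are the
eigenvalues of the Satake parameters in the standard representations of the dual groups; they have absolute value `1` and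
the families are stable under `z ↦ z⁻¹`. Let

`F(s) = ∏_{v ∉ S} ∏_{i,j} (1 - a_{v,i} b_{v,j} q_v^{-s})⁻¹`, `Re s > 1`,

be the partial `L`-function; it is known (Arthur's transfer to general linear groups and Rankin-Selberg theory) that it is
holomorphic and of polynomial growth in a half plane `Re s > 1/2 - η` except for possible poles on `Re s = 1` for
degenerate data; we assume that it has no poles. The missing factors have neither zeros nor poles for `Re s ≥ 1/2`, so that
`Λ ≠ 0` in the problem means `F(1/2) ≠ 0`. Let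

`P(y) = ∏_{v ∉ S, q_v ≤ y} |∏_{i,j} (1 - a_{v,i} b_{v,j} q_v^{-1/2})|`,
`P*(y) = exp (- ∑_{v ∉ S, q_v^k ≤ y} (∑_i a_{v,i}^k)(∑_j b_{v,j}^k) / (k q_v^{k/2}))`.

Fix `0 < δ < 1`; the windows are the intervals `[Y^(1-δ), Y]`. The Riemann hypothesis is `F(s) ≠ 0` for `Re s > 1/2`. We
prove:

1. The Riemann hypothesis and `Λ ≠ 0` hold together if and only if `∫ |log P(y)| dy/y ≤ B log Y` over the windows of
   arbitrarily large `Y` (one sequence, as sparse as we like), for some `B`; equivalently for all large `Y`.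
2. If the order of `F` at `1/2` is even, as it should be under the local conditions of the problem (root number `1`), then
   the Riemann hypothesis and `Λ ≠ 0` hold together if and only if
   `∫ max (log P(y) - κ log log y, 0) dy/y ≤ B log Y` over the windows of arbitrarily large `Y` for some `B`, for ONE
   `κ` with `0 ≤ κ < 2`; equivalently for all large `Y`. So, under the Riemann hypothesis, the conjecture says that the
   period is not identically zero exactly when the mean values of `log P` over one sequence of windows do not exceed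
   `κ log log y + B`.
3. The Riemann hypothesis and `Λ = 0` hold together if and only if there is an integer `m ≥ 1` such that
   `∫ |log P(y) - m log log y| dy/y ≤ B log Y` over the windows of arbitrarily large `Y` for some `B`.
4. For `A > 0`: the Riemann hypothesis and `F(1/2) = A` hold together if and only if `∫ |log (A P*(y))| dy/y ≤ ε log Y`
   over the windows of arbitrarily large `Y`, for each `ε > 0`; equivalently for all large `Y`.
5. If `F(1/2) ≠ 0` and `A > |F(1/2)|`, then there is a `β > 0` with `∫ max (log (A P*(y)), 0) dy/y > β log Y` over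
   ALL windows with large `Y`.
-/

set_option autoImplicit false

namespace Pool.Agent.Results.MP_6342b0_nt.CentralValueWindows

open Filter Topology Set Complex NumberField IsDedekindDomain MeasureTheory ComplexConjugate
open Pool.Agent.Q18.P (norm Holo NoZeros Order IsLeading MeanBound excess error ratio upTo SelfDual tensor)

variable {K : Type} [Field K] [NumberField K] {p q : ℕ}

/-- `∏_{i,j} (1 - a_{v,i} b_{v,j} q_v^{-s})` -/
noncomputable def factor (a : HeightOneSpectrum (𝓞 K) → Fin p → ℂ) (b : HeightOneSpectrum (𝓞 K) → Fin q → ℂ)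
    (v : HeightOneSpectrum (𝓞 K)) (s : ℂ) : ℂ :=
  ∏ i, ∏ j, (1 - a v i * b v j * (norm v : ℂ) ^ (-s))

/-- `F` is holomorphic, of polynomial growth in a half plane `Re s > 1/2 - η`, and for `Re s > 1` it is the Euler
product. -/
structure IsL (S : Finset (HeightOneSpectrum (𝓞 K))) (a : HeightOneSpectrum (𝓞 K) → Fin p → ℂ)
    (b : HeightOneSpectrum (𝓞 K) → Fin q → ℂ) (F : ℂ → ℂ) : Prop where
  holo : Holo (1 / 2) F
  euler : ∀ s : ℂ, 1 < s.re → HasProd (fun v : {v : HeightOneSpectrum (𝓞 K) // v ∉ S} => (factor a b v.1 s)⁻¹) (F s)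

/-- `P(y) = ∏_{v ∉ S, q_v ≤ y} |∏_{i,j} (1 - a_{v,i} b_{v,j} q_v^{-1/2})|` -/
noncomputable def product (S : Finset (HeightOneSpectrum (𝓞 K))) (a : HeightOneSpectrum (𝓞 K) → Fin p → ℂ)
    (b : HeightOneSpectrum (𝓞 K) → Fin q → ℂ) (y : ℝ) : ℝ :=
  ∏ᶠ v ∈ upTo S y, ‖factor a b v (1 / 2)‖

/-- `P*(y) = exp (- ∑_{v ∉ S, q_v^k ≤ y} (∑_i a_{v,i}^k)(∑_j b_{v,j}^k) / (k q_v^{k/2}))`, `k = r.2 + 1` -/
noncomputable def productStar (S : Finset (HeightOneSpectrum (𝓞 K))) (a : HeightOneSpectrum (𝓞 K) → Fin p → ℂ)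
    (b : HeightOneSpectrum (𝓞 K) → Fin q → ℂ) (y : ℝ) : ℝ :=
  Real.exp (-∑ᶠ (r : {v : HeightOneSpectrum (𝓞 K) // v ∉ S} × ℕ) (_ : (norm r.1.1 : ℝ) ^ (r.2 + 1) ≤ y),
    ((∑ i, a r.1.1 i ^ (r.2 + 1)) * ∑ j, b r.1.1 j ^ (r.2 + 1)).re /
      (((r.2 : ℝ) + 1) * ((norm r.1.1 : ℝ) ^ (1 / 2 : ℝ)) ^ (r.2 + 1)))

/-- the central value of `F` -/
noncomputable def central (F : ℂ → ℂ) : ℂ := F ((1 / 2 : ℝ) : ℂ)

/-! ### translation -/

variable {S : Finset (HeightOneSpectrum (𝓞 K))} {a : HeightOneSpectrum (𝓞 K) → Fin p → ℂ}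
  {b : HeightOneSpectrum (𝓞 K) → Fin q → ℂ} {F : ℂ → ℂ}

theorem factor_eq (v : HeightOneSpectrum (𝓞 K)) (s : ℂ) :
    factor a b v s = ∏ j, (1 - tensor a b v j * (norm v : ℂ) ^ (-s)) :=
  (Pool.Agent.Q18.P.prod_tensor a b v _).symm

theorem product_eq : product S a b = Pool.Agent.Q18.P.product (1 / 2) S (tensor a b) := by
  funext y
  unfold product Pool.Agent.Q18.P.product
  refine finprod_congr fun v => finprod_congr fun _ => ?_
  rw [factor_eq]
  push_cast
  rfl

theorem star_eq : productStar S a b = Pool.Agent.Q18.P.productStar (1 / 2) S (tensor a b) := by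
  funext y
  unfold productStar Pool.Agent.Q18.P.productStar
  congr 2
  refine finsum_congr fun p => finsum_congr fun _ => ?_
  rw [Pool.Agent.Q18.P.sum_tensor]

/-- **Central values for `SO(n+1) × SO(n)` from Euler products on one sequence of windows.** -/
theorem result (K : Type) [Field K] [NumberField K] (p q : ℕ) (S : Finset (HeightOneSpectrum (𝓞 K)))
    (a : HeightOneSpectrum (𝓞 K) → Fin p → ℂ) (b : HeightOneSpectrum (𝓞 K) → Fin q → ℂ) (ha : SelfDual S a)
    (hb : SelfDual S b) (F : ℂ → ℂ) (hF : IsL S a b F) (δ : ℝ) (h0 : 0 < δ) (h1 : δ < 1) :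
    -- (1) nonvanishing
    List.TFAE [
      NoZeros (1 / 2) F ∧ central F ≠ 0,
      ∃ B : ℝ, ∃ᶠ Y : ℝ in atTop, MeanBound δ (fun y => |Real.log (product S a b y)|) B Y,
      ∃ B : ℝ, ∀ᶠ Y : ℝ in atTop, MeanBound δ (fun y => |Real.log (product S a b y)|) B Y] ∧
    -- (2) nonvanishing, one-sided, even order
    ((∀ m : ℤ, Order (1 / 2) F m → 2 ∣ m) → ∀ κ : ℝ, 0 ≤ κ → κ < 2 → List.TFAE [
      NoZeros (1 / 2) F ∧ central F ≠ 0,
      ∃ B : ℝ, ∃ᶠ Y : ℝ in atTop, MeanBound δ (excess (product S a b) κ) B Y,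
      ∃ B : ℝ, ∀ᶠ Y : ℝ in atTop, MeanBound δ (excess (product S a b) κ) B Y]) ∧
    -- (3) vanishing
    ((NoZeros (1 / 2) F ∧ central F = 0) ↔
      ∃ (m : ℤ) (B : ℝ), 1 ≤ m ∧ ∃ᶠ Y : ℝ in atTop, MeanBound δ (error (product S a b) m) B Y) ∧
    -- (4) the value
    (∀ A : ℝ, 0 < A → List.TFAE [
      NoZeros (1 / 2) F ∧ central F = A,
      ∀ ε : ℝ, 0 < ε → ∃ᶠ Y : ℝ in atTop, MeanBound δ (fun y => |Real.log (A * productStar S a b y)|) ε Y,
      ∀ ε : ℝ, 0 < ε → ∀ᶠ Y : ℝ in atTop, MeanBound δ (fun y => |Real.log (A * productStar S a b y)|) ε Y]) ∧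
    -- (5) in every window
    (central F ≠ 0 → ∀ A : ℝ, ‖central F‖ < A → ∃ β : ℝ, 0 < β ∧
      ∀ᶠ Y : ℝ in atTop, ¬ MeanBound δ (fun y => max (Real.log (A * productStar S a b y)) 0) β Y) := by
  have hc : (1 / 2 : ℝ) = (((0 : ℕ) : ℝ) + 1) / 2 := by norm_num
  have hE : Pool.Agent.Q18.P.Euler (1 / 2) S (tensor a b) F := by
    intro s hs
    refine (hF.euler s (by linarith)).congr_fun fun v => ?_
    rw [factor_eq]
  have hP : Pool.Agent.Q18.P.Pure 0 S (tensor a b) := Pool.Agent.Q18.P.tensor_pure ha.pure hb.pure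
  have L := Pool.Agent.Q18.P.laws hc hP.le hF.holo hE h0 h1
  have hv : Order (1 / 2) F 0 ↔ central F ≠ 0 := Pool.Agent.Q18.P.value_iff hF.holo
  have hl : ∀ a : ℂ, IsLeading (1 / 2) F 0 a ↔ central F ≠ 0 ∧ central F = a :=
    fun a => Pool.Agent.Q18.P.lead_zero hF.holo
  have hr : ∀ (A : ℝ) (Q : ℝ → ℝ) (y : ℝ), ratio Q A ((0 : ℤ) : ℝ) y = Real.log (A * Q y) := by
    intro A Q y
    unfold Pool.Agent.Q18.P.ratio
    rw [Int.cast_zero, Real.rpow_zero, div_one]
  rw [product_eq, star_eq]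
  refine ⟨?_, fun hp κ h2 h3 => ?_, ⟨?_, ?_⟩, fun A hA => ?_, fun hne A hA => ?_⟩
  · have t := L.order 0
    rw [hv] at t
    have e1 : error (Pool.Agent.Q18.P.product (1 / 2) S (tensor a b)) ((0 : ℤ) : ℝ) =
        fun y => |Real.log (Pool.Agent.Q18.P.product (1 / 2) S (tensor a b) y)| := by
      funext y
      unfold Pool.Agent.Q18.P.error
      rw [Int.cast_zero, zero_mul, sub_zero]
    rw [e1] at t
    exact t
  · have t := L.parity (r := 0) (fun m hm => by rw [sub_zero]; exact hp m hm) (by exact_mod_cast h2)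
      (by rw [Int.cast_zero, zero_add]; exact h3)
    have e1 : (NoZeros (1 / 2) F ∧ ∃ m : ℤ, Order (1 / 2) F m ∧ m ≤ 0) ↔ NoZeros (1 / 2) F ∧ central F ≠ 0 := by
      refine and_congr_right fun _ => ?_
      rw [← hv]
      refine ⟨?_, fun h => ⟨0, h, le_rfl⟩⟩
      rintro ⟨m, hm, hm0⟩
      have h5 := Pool.Agent.Q18.P.order_nonneg hF.holo hm
      have : m = 0 := by omega
      rw [← this]
      exact hm
    rw [e1] at t
    exact t
  · rintro ⟨hz, hc0⟩
    -- the order is finite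
    have hfin : ∃ m : ℤ, Order (1 / 2) F m := by
      have hT := Pool.Agent.Q18.P.tempered_of hF.holo hE
      obtain ⟨hC, han⟩ := Pool.Agent.Q18.P.of_tempered hT
      obtain ⟨η, C, k, hη, h⟩ := hF.holo
      have ho : IsOpen {s : ℂ | (1 / 2 : ℝ) - η < s.re} := isOpen_lt continuous_const Complex.continuous_re
      have hd : DifferentiableOn ℂ F {s : ℂ | (1 / 2 : ℝ) - η < s.re} :=
        fun s hs => (h s hs).1.differentiableWithinAt
      have hmem : (((1 / 2 : ℝ)) : ℂ) ∈ {s : ℂ | (1 / 2 : ℝ) - η < s.re} := by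
        show (1 / 2 : ℝ) - η < (((1 / 2 : ℝ)) : ℂ).re
        rw [Complex.ofReal_re]
        linarith
      have ha' : AnalyticAt ℂ F (((1 / 2 : ℝ)) : ℂ) := hd.analyticAt (ho.mem_nhds hmem)
      cases hh : meromorphicOrderAt F (((1 / 2 : ℝ)) : ℂ) with
      | coe m => exact ⟨m, hh⟩
      | top =>
        exfalso
        rw [ha'.meromorphicOrderAt_eq] at hh
        have h5 : analyticOrderAt F (((1 / 2 : ℝ)) : ℂ) = ⊤ := by
          cases h6 : analyticOrderAt F (((1 / 2 : ℝ)) : ℂ) with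
          | top => rfl
          | coe n => rw [h6] at hh; exact absurd hh (by simp)
        have h6 := analyticOrderAt_eq_top.1 h5
        have hpre : IsPreconnected {s : ℂ | (1 / 2 : ℝ) - η < s.re} := (convex_halfSpace_re_gt _).isPreconnected
        have hon : AnalyticOnNhd ℂ F {s : ℂ | (1 / 2 : ℝ) - η < s.re} := fun s hs => hd.analyticAt (ho.mem_nhds hs)
        have h7 := hon.eqOn_zero_of_preconnected_of_eventuallyEq_zero hpre hmem h6
        have h8 : F 2 = 0 := h7 (by
          show (1 / 2 : ℝ) - η < (2 : ℂ).re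
          simp only [Complex.re_ofNat]
          linarith)
        exact hz 2 (by simp only [Complex.re_ofNat]; norm_num) h8
    obtain ⟨m, hm⟩ := hfin
    have h5 := Pool.Agent.Q18.P.order_nonneg hF.holo hm
    have h6 : m ≠ 0 := by
      rintro rfl
      exact hv.1 hm hc0
    have t : (NoZeros (1 / 2) F ∧ Order (1 / 2) F m) ↔ ∃ B : ℝ, ∃ᶠ Y : ℝ in atTop,
      MeanBound δ (error (Pool.Agent.Q18.P.product (1 / 2) S (tensor a b)) m) B Y := (L.order m).out 0 1
    obtain ⟨B, hB⟩ := t.1 ⟨hz, hm⟩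
    exact ⟨m, B, by omega, hB⟩
  · rintro ⟨m, B, hm1, hB⟩
    have t : (NoZeros (1 / 2) F ∧ Order (1 / 2) F m) ↔ ∃ B : ℝ, ∃ᶠ Y : ℝ in atTop,
      MeanBound δ (error (Pool.Agent.Q18.P.product (1 / 2) S (tensor a b)) m) B Y := (L.order m).out 0 1
    obtain ⟨hz, hm⟩ := t.2 ⟨B, hB⟩
    refine ⟨hz, ?_⟩
    by_contra hne
    have h0' := hv.2 hne
    unfold Pool.Agent.Q18.P.Order at hm h0'
    rw [hm] at h0'
    have : m = 0 := by exact_mod_cast h0'
    omega
  · have t := Pool.Agent.Q18.P.Laws.lead_real hc hP hF.holo hE h0 h1 0 hA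
    have e1 : (NoZeros (1 / 2) F ∧ IsLeading (1 / 2) F 0 A) ↔ NoZeros (1 / 2) F ∧ central F = A := by
      refine and_congr_right fun _ => ?_
      rw [hl]
      refine ⟨fun h => h.2, fun h => ⟨?_, h⟩⟩
      rw [h]
      exact_mod_cast hA.ne'
    rw [e1] at t
    simp only [hr] at t
    exact t
  · have t := L.omega 0 (central F) ((hl _).2 ⟨hne, rfl⟩) A hA
    simp only [hr] at t
    exact t

end Pool.Agent.Results.MP_6342b0_nt.CentralValueWindows
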